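import Pool.Agent.helper45.BR.Spec

set_option autoImplicit false

open Complex Metric Set Filter Topology MeasureTheory MPS Pool.Agent.helper98.ILF
  Pool.Agent.helper16.Multibrot

noncomputable section

namespace BR

lemma HUL_frontier (Γ : Set ℂ) (hΓ : IsCompact Γ) (p : ℂ) :
    frontier (connectedComponentIn Γᶜ p) ⊆ Γ := by
  intro q hq
  by_contra hqΓ
  have ho : IsOpen Γᶜ := hΓ.isClosed.isOpen_compl
  have hN : IsOpen (connectedComponentIn Γᶜ p) := ho.connectedComponentIn
  have hM : IsOpen (connectedComponentIn Γᶜ q) := ho.connectedComponentIn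
  have hqM : q ∈ connectedComponentIn Γᶜ q := mem_connectedComponentIn hqΓ
  have hcl : q ∈ closure (connectedComponentIn Γᶜ p) := hq.1
  obtain ⟨z, hz1, hz2⟩ := mem_closure_iff.1 hcl _ hM hqM
  have e1 := connectedComponentIn_eq hz1
  have e2 := connectedComponentIn_eq hz2
  have hqN : q ∈ connectedComponentIn Γᶜ p := by
    rw [e2, ← e1]; exact hqM
  have := hq.2
  rw [hN.interior_eq] at this
  exact this hqN

theorem HUL (hMXP : MXP_stmt) (hCMP : CMP_stmt) : HUL_stmt := by
  intro n c U hn hc hU Γ hΓU hΓ p hp hb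
  obtain ⟨hUo, -, -, -, hS, -, -, -⟩ := hCMP n c U hn hc hU
  have hsub : Γ ⊆ filled n c := by
    obtain ⟨-, -, hUi, -, -, -, -, -⟩ := hCMP n c U hn hc hU
    exact fun x hx => interior_subset (hUi (hΓU hx))
  have ho : IsOpen Γᶜ := hΓ.isClosed.isOpen_compl
  have hN : IsOpen (connectedComponentIn Γᶜ p) := ho.connectedComponentIn
  have hpN : p ∈ connectedComponentIn Γᶜ p := mem_connectedComponentIn hp
  have hfr := HUL_frontier Γ hΓ p
  have hNK : connectedComponentIn Γᶜ p ⊆ filled n c :=
    hMXP n c _ hN hb (hfr.trans hsub)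
  have hNW : connectedComponentIn Γᶜ p ⊆ interior (filled n c) := interior_maximal hNK hN
  have hne : (frontier (connectedComponentIn Γᶜ p)).Nonempty := by
    rw [nonempty_iff_ne_empty]
    intro h0
    have hcl : IsClopen (connectedComponentIn Γᶜ p) := isClopen_iff_frontier_eq_empty.2 h0
    rcases isClopen_iff.1 hcl with h | h
    · rw [h] at hpN; exact hpN
    · rw [h] at hb
      exact NormedSpace.unbounded_univ ℝ ℂ hb
  obtain ⟨q, hq⟩ := hne
  have hqU : q ∈ U := hΓU (hfr hq)
  obtain ⟨z, hz1, hz2⟩ := mem_closure_iff.1 hq.1 U hUo hqU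
  exact hS _ hNW isPreconnected_connectedComponentIn ⟨z, hz2, hz1⟩

end BR
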