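import Pool.Agent.helper59.BR.SpecH

/-!
# Project BR (MP_baa4d7_al), block H, row HPT: invariance of the contributions under `T`
-/

set_option autoImplicit false

namespace Pool.Agent.BR

open Pool.Agent.helper58.DC Pool.Agent.DI Pool.Agent.GR Pool.Agent.OB Pool.Agent.DR Pool.Agent.FI Pool.Agent.FI3 Pool.Agent.FI4 Pool.Agent.LE

section

variable {G : Type} [Group G]

theorem HPT_top (t : G) : cjS t (⊤ : Subgroup G) = ⊤ := by
  ext x
  rw [mem_cjS]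
  simp

theorem HPT_preg {p : ℕ} (t v : G) : PReg p (t * v * t⁻¹) ↔ PReg p v := by
  unfold PReg
  have h : orderOf (t * v * t⁻¹) = orderOf v := by
    have h1 : t * v * t⁻¹ = (MulAut.conj t) v := rfl
    rw [h1]
    exact MulEquiv.orderOf_eq (MulAut.conj t) v
  rw [h]

theorem HPT_card (t : G) (K : Subgroup G) : Nat.card (cjS t K) = Nat.card K :=
  (Nat.card_congr (K.equivMapOfInjective _ (MulAut.conj t).injective).toEquiv).symm

theorem HPT_az (p : ℕ) (t u : G) (K : Subgroup G) (η ψ : G → ℂ) (hψ : ∀ x, ψ (t * x * t⁻¹) = ψ x) :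
    az p (cjS t K) (cjF t η) ψ (t * u * t⁻¹) = az p K η ψ u := by
  unfold az
  rw [HPT_card]
  congr 1
  symm
  apply finsum_mem_eq_of_bijOn (fun v => t * v * t⁻¹)
  · refine ⟨?_, ?_, ?_⟩
    · rintro v ⟨hv, hp⟩
      refine ⟨?_, (HPT_preg t v).2 hp⟩
      rw [mem_cjS]
      have h : t⁻¹ * (t * v * t⁻¹) * t = v := by group
      rw [h]
      exact hv
    · intro v _ w _ h
      have h' : t * v * t⁻¹ = t * w * t⁻¹ := h
      exact mul_left_cancel (mul_right_cancel h')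
    · rintro v ⟨hv, hp⟩
      refine ⟨t⁻¹ * v * t, ⟨mem_cjS.1 hv, ?_⟩, by group⟩
      rw [← HPT_preg t]
      have h : t * (t⁻¹ * v * t) * t⁻¹ = v := by group
      rw [h]
      exact hp
  · intro v _
    have h1 : t * u * t⁻¹ * (t * v * t⁻¹) = t * (u * v) * t⁻¹ := by group
    have h2 : t⁻¹ * (t * v * t⁻¹)⁻¹ * t = v⁻¹ := by group
    change ψ (u * v) * η v⁻¹ = ψ (t * u * t⁻¹ * (t * v * t⁻¹)) * cjF t η (t * v * t⁻¹)⁻¹
    rw [h1, hψ, cjF_apply, h2]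

end

theorem HPT (hHGR : HGR_stmt) (hFEQ : FEQ_stmt) (hB2 : B2_stmt) : HPT_stmt := by
  intro p M hS G _ _ D x θ χ hL u hu t ht ψ hψ ψ' hψ'
  have hnz : t ∈ nz D := ht.1
  have hsb : SB M (cz D) (cjF t θ) θ := ht.2
  have hu' : t * u * t⁻¹ ∈ D := (Subgroup.mem_normalizer_iff.1 hnz u).1 hu
  have hK : cjS t (Cz (⊤ : Subgroup G) u) = Cz (⊤ : Subgroup G) (t * u * t⁻¹) := by
    have h := (hFEQ G M t 1 ⊥ ⊥ (⊤ : Subgroup G) θ θ θ).2.2.1 u
    rw [HPT_top] at h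
    exact h
  have hcl : ∀ φ ∈ IrrOn (⊤ : Subgroup G), ∀ y, φ (t * y * t⁻¹) = φ y := fun φ hφ y =>
    ((hB2 G ⊤).2 φ hφ).2.1 y t (Subgroup.mem_top t)
  have hθ0 : ∀ y, y ∉ cz D → θ y = 0 := hL.rt.th.1
  have hθ1 : ∀ y, y ∉ cz D → cjF t θ y = 0 := by
    intro y hy
    rw [cjF_apply]
    apply hθ0
    intro h
    apply hy
    have h1 := cz_conj hnz h
    have h2 : t * (t⁻¹ * y * t) * t⁻¹ = y := by group
    rwa [h2] at h1
  have hle : cz D ≤ Cz (⊤ : Subgroup G) (t * u * t⁻¹) := by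
    intro y hy
    rw [mem_Cz]
    exact ⟨Subgroup.mem_top y, (Subgroup.mem_centralizer_iff.1 hy) _ hu'⟩
  have hSB : SB M (Cz (⊤ : Subgroup G) (t * u * t⁻¹)) (cjF t θ) θ := TRNb hle hθ1 hθ0 hsb
  have hBl : ∀ η : G → ℂ, η ∈ Bl M (Cz (⊤ : Subgroup G) u) θ ↔ cjF t η ∈ Bl M (Cz (⊤ : Subgroup G) (t * u * t⁻¹)) θ := by
    intro η
    have h := (hFEQ G M t 1 ⊥ ⊥ (Cz (⊤ : Subgroup G) u) θ η θ).2.2.2.2.2.2.1
    rw [h, hK]
    constructor
    · rintro ⟨h1, h2⟩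
      exact ⟨h1, h2.trans hSB⟩
    · rintro ⟨h1, h2⟩
      exact ⟨h1, h2.trans hSB.symm⟩
  have hcj : ∀ (g h : G) (η : G → ℂ), cjF g (cjF h η) = cjF (g * h) η := fun g h η =>
    (hFEQ G M g h ⊥ ⊥ ⊥ θ η θ).1.2.1
  have hc1 : ∀ η : G → ℂ, cjF (1 : G) η = η := fun η => (hFEQ G M 1 1 ⊥ ⊥ ⊥ θ η θ).1.2.2.2
  rw [hHGR p M hS G θ u ψ hψ ψ' hψ', hHGR p M hS G θ (t * u * t⁻¹) ψ hψ ψ' hψ']
  symm
  apply finsum_mem_eq_of_bijOn (fun η => cjF t η)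
  · refine ⟨fun η hη => (hBl η).1 hη, ?_, ?_⟩
    · intro η _ η' _ h
      have h' : cjF t η = cjF t η' := h
      have h1 := congrArg (cjF t⁻¹) h'
      rw [hcj, hcj, inv_mul_cancel, hc1, hc1] at h1
      exact h1
    · intro η hη
      have h1 : cjF t (cjF t⁻¹ η) = η := by rw [hcj, mul_inv_cancel, hc1]
      refine ⟨cjF t⁻¹ η, ?_, h1⟩
      rw [hBl, h1]
      exact hη
  · intro η _
    have e1 := HPT_az p t u (Cz (⊤ : Subgroup G) u) η ψ (hcl ψ hψ)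
    have e2 := HPT_az p t u (Cz (⊤ : Subgroup G) u) η ψ' (hcl ψ' hψ')
    rw [hK] at e1 e2
    rw [← e1, ← e2]

end Pool.Agent.BR
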