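import Pool.Agent.helper45.BR.Spec

set_option autoImplicit false

open Complex Metric Set Filter Topology MeasureTheory MPS Pool.Agent.helper98.ILF
  Pool.Agent.helper16.Multibrot

noncomputable section

namespace BR

lemma EXV_bound (V : ℂ → ℂ) (Ω : Set ℂ) (M : ℝ) (hM : 0 ≤ M) (h4 : {z : ℂ | 4 ≤ ‖z‖} ⊆ Ω)
    (hV : ∀ z : ℂ, 4 ≤ ‖z‖ → ‖V z‖ ≤ 1) (hCR : CR M V Ω) (z : ℂ) (hz : z ∈ Ω) (hz4 : ‖z‖ < 4) :
    ‖V z‖ ≤ 90 * (M * (1 + Real.log 10) + 2) := by
  have h5 : ‖(5 : ℂ)‖ = 5 := by simp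
  have h6 : ‖(6 : ℂ)‖ = 6 := by simp
  have l5 : 1 ≤ ‖5 - z‖ := by
    have := norm_sub_norm_le (5 : ℂ) z; rw [h5] at this; linarith
  have u5 : ‖5 - z‖ ≤ 9 := by
    have := norm_sub_le (5 : ℂ) z; rw [h5] at this; linarith
  have l6 : 2 ≤ ‖6 - z‖ := by
    have := norm_sub_norm_le (6 : ℂ) z; rw [h6] at this; linarith
  have u6 : ‖6 - z‖ ≤ 10 := by
    have := norm_sub_le (6 : ℂ) z; rw [h6] at this; linarith
  have n5 : (5 : ℂ) - z ≠ 0 := by
    intro h; rw [h] at l5; simp at l5; linarith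
  have n6 : (6 : ℂ) - z ≠ 0 := by
    intro h; rw [h] at l6; simp at l6; linarith
  have key := hCR z (5 - z) (6 - z) n5 n6 hz
    (by apply h4; simp only [mem_ofPred_eq]; rw [add_sub_cancel, h5]; norm_num)
    (by apply h4; simp only [mem_ofPred_eq]; rw [add_sub_cancel, h6]; norm_num)
  rw [add_sub_cancel, add_sub_cancel] at key
  have hlog : |Real.log (‖5 - z‖ / ‖6 - z‖)| ≤ Real.log 10 := by
    have hpos : 0 < ‖5 - z‖ / ‖6 - z‖ := by positivity
    rw [abs_le]
    constructor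
    · have h1 : (10 : ℝ)⁻¹ ≤ ‖5 - z‖ / ‖6 - z‖ := by
        rw [le_div_iff₀ (by positivity)]; linarith
      have := Real.log_le_log (by norm_num) h1
      rw [Real.log_inv] at this
      exact this
    · apply Real.log_le_log hpos
      rw [div_le_iff₀ (by positivity)]
      linarith
  have hkey2 : ‖(V 5 - V z) / (5 - z) - (V 6 - V z) / (6 - z)‖ ≤ M * (1 + Real.log 10) := by
    refine key.trans (mul_le_mul_of_nonneg_left (by linarith) hM)
  have e : V z / ((5 - z) * (6 - z)) = V 5 / (5 - z) - V 6 / (6 - z) -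
      ((V 5 - V z) / (5 - z) - (V 6 - V z) / (6 - z)) := by
    field_simp
    ring
  have b5 : ‖V 5 / (5 - z)‖ ≤ 1 := by
    rw [norm_div, div_le_iff₀ (by positivity)]
    have := hV 5 (by rw [h5]; norm_num)
    linarith
  have b6 : ‖V 6 / (6 - z)‖ ≤ 1 := by
    rw [norm_div, div_le_iff₀ (by positivity)]
    have := hV 6 (by rw [h6]; norm_num)
    linarith
  have hb : ‖V z / ((5 - z) * (6 - z))‖ ≤ M * (1 + Real.log 10) + 2 := by
    rw [e]
    refine (norm_sub_le _ _).trans ?_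
    have := norm_sub_le (V 5 / (5 - z)) (V 6 / (6 - z))
    linarith
  rw [norm_div, norm_mul, div_le_iff₀ (by positivity)] at hb
  refine hb.trans ?_
  have h90 : ‖5 - z‖ * ‖6 - z‖ ≤ 90 := by nlinarith
  have hnn : 0 ≤ M * (1 + Real.log 10) + 2 := by
    have : 0 ≤ Real.log 10 := Real.log_nonneg (by norm_num)
    positivity
  nlinarith

lemma EXV_mod (V : ℂ → ℂ) (Ω : Set ℂ) (M : ℝ) (hM : 0 ≤ M) (h4 : {z : ℂ | 4 ≤ ‖z‖} ⊆ Ω)
    (hV : ∀ z : ℂ, 4 ≤ ‖z‖ → ‖V z‖ ≤ 1) (hCR : CR M V Ω) (z w : ℂ) (hz : z ∈ Ω) (hz4 : ‖z‖ < 4)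
    (hw : w ∈ Ω) :
    ‖V w - V z‖ ≤ ‖w - z‖ * (M * (1 + Real.log 9) + (1 + 90 * (M * (1 + Real.log 10) + 2))) +
      M * |‖w - z‖ * Real.log ‖w - z‖| := by
  have hl9 : 0 ≤ Real.log 9 := Real.log_nonneg (by norm_num)
  have hl10 : 0 ≤ Real.log 10 := Real.log_nonneg (by norm_num)
  by_cases hwz : w = z
  · subst hwz; simp
  have h5 : ‖(5 : ℂ)‖ = 5 := by simp
  have l5 : 1 ≤ ‖5 - z‖ := by
    have := norm_sub_norm_le (5 : ℂ) z; rw [h5] at this; linarith
  have u5 : ‖5 - z‖ ≤ 9 := by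
    have := norm_sub_le (5 : ℂ) z; rw [h5] at this; linarith
  have n5 : (5 : ℂ) - z ≠ 0 := by
    intro h; rw [h] at l5; simp at l5; linarith
  have na : w - z ≠ 0 := sub_ne_zero.2 hwz
  have key := hCR z (w - z) (5 - z) na n5 hz (by rw [add_sub_cancel]; exact hw)
    (by apply h4; simp only [mem_ofPred_eq]; rw [add_sub_cancel, h5]; norm_num)
  rw [add_sub_cancel, add_sub_cancel] at key
  have hapos : 0 < ‖w - z‖ := norm_pos_iff.2 na
  have hlog : |Real.log (‖w - z‖ / ‖5 - z‖)| ≤ |Real.log ‖w - z‖| + Real.log 9 := by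
    rw [Real.log_div hapos.ne' (by positivity)]
    refine (abs_sub _ _).trans ?_
    have : |Real.log ‖5 - z‖| ≤ Real.log 9 := by
      rw [abs_of_nonneg (Real.log_nonneg l5)]
      exact Real.log_le_log (by positivity) u5
    linarith
  have hBz := EXV_bound V Ω M hM h4 hV hCR z hz hz4
  have b5 : ‖(V 5 - V z) / (5 - z)‖ ≤ 1 + 90 * (M * (1 + Real.log 10) + 2) := by
    rw [norm_div, div_le_iff₀ (by positivity)]
    have h1 := hV 5 (by rw [h5]; norm_num)
    have h2 := norm_sub_le (V 5) (V z)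
    have h3 : 0 ≤ 1 + 90 * (M * (1 + Real.log 10) + 2) := by positivity
    nlinarith
  have hq : ‖(V w - V z) / (w - z)‖ ≤ M * (1 + (|Real.log ‖w - z‖| + Real.log 9)) +
      (1 + 90 * (M * (1 + Real.log 10) + 2)) := by
    have h1 : ‖(V w - V z) / (w - z)‖ ≤
        ‖(V w - V z) / (w - z) - (V 5 - V z) / (5 - z)‖ + ‖(V 5 - V z) / (5 - z)‖ := by
      have := norm_add_le ((V w - V z) / (w - z) - (V 5 - V z) / (5 - z)) ((V 5 - V z) / (5 - z))
      rwa [sub_add_cancel] at this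
    have h2 : M * (1 + |Real.log (‖w - z‖ / ‖5 - z‖)|) ≤
        M * (1 + (|Real.log ‖w - z‖| + Real.log 9)) :=
      mul_le_mul_of_nonneg_left (by linarith) hM
    linarith
  rw [norm_div, div_le_iff₀ hapos] at hq
  refine hq.trans (le_of_eq ?_)
  rw [abs_mul, abs_of_pos hapos]
  ring

theorem EXV : EXV_stmt := by
  intro V Ω M hM hΩo hΩd h4 hV hVc hCR
  set C : ℝ := M * (1 + Real.log 9) + (1 + 90 * (M * (1 + Real.log 10) + 2)) with hC
  have hmod := EXV_mod V Ω M hM h4 hV hCR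
  have hlim : ∀ x : ℂ, ∃ y, Tendsto V (𝓝[Ω] x) (𝓝 y) := by
    intro x
    by_cases hx : 4 ≤ ‖x‖
    · exact ⟨V x, hVc x (h4 hx)⟩
    push Not at hx
    have : (𝓝[Ω] x).NeBot := mem_closure_iff_nhdsWithin_neBot.1 (hΩd x)
    refine cauchy_map_iff_exists_tendsto.1 ?_
    rw [Metric.cauchy_iff]
    refine ⟨inferInstance, fun ε hε => ?_⟩
    -- the modulus tends to 0
    have hcont : Continuous fun t : ℝ => t * C + M * |t * Real.log t| :=
      (continuous_id.mul continuous_const).add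
        (continuous_const.mul (Real.continuous_mul_log.abs))
    have hev : ∀ᶠ t in 𝓝 (0 : ℝ), t * C + M * |t * Real.log t| < ε := by
      have h1 : Tendsto (fun t : ℝ => t * C + M * |t * Real.log t|) (𝓝 0) (𝓝 0) := by
        have h2 := hcont.tendsto 0
        simpa using h2
      exact h1.eventually (gt_mem_nhds hε)
    obtain ⟨δ, hδ, hδ2⟩ := Metric.eventually_nhds_iff.1 hev
    have hmem : ball x (δ / 2) ∩ ball 0 4 ∩ Ω ∈ 𝓝[Ω] x := by
      refine inter_mem (mem_nhdsWithin_of_mem_nhds (inter_mem (ball_mem_nhds x (by linarith)) ?_))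
        self_mem_nhdsWithin
      exact isOpen_ball.mem_nhds (by simpa using hx)
    refine ⟨V '' (ball x (δ / 2) ∩ ball 0 4 ∩ Ω), image_mem_map hmem, ?_⟩
    rintro _ ⟨w, ⟨⟨hw1, hw2⟩, hw3⟩, rfl⟩ _ ⟨z, ⟨⟨hz1, hz2⟩, hz3⟩, rfl⟩
    rw [dist_eq_norm]
    have hz4 : ‖z‖ < 4 := by simpa using hz2
    refine (hmod z w hz3 hz4 hw3).trans_lt ?_
    apply hδ2
    rw [Real.dist_eq, sub_zero, abs_of_nonneg (norm_nonneg _), ← dist_eq_norm]
    have h1 := dist_triangle_right w z x
    rw [mem_ball] at hw1 hz1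
    linarith
  refine ⟨extendFrom Ω V, continuous_extendFrom hΩd hlim, extendFrom_extends hVc, ?_⟩
  set v := extendFrom Ω V with hv
  have hvc : Continuous v := continuous_extendFrom hΩd hlim
  have hve : ∀ x ∈ Ω, v x = V x := extendFrom_extends hVc
  intro z a b ha hb _ _ _
  -- reduce to the three points
  have hgen : ∀ z p q : ℂ, p ≠ z → q ≠ z →
      ‖(v p - v z) / (p - z) - (v q - v z) / (q - z)‖ ≤
        M * (1 + |Real.log (‖p - z‖ / ‖q - z‖)|) := by
    intro z p q hp hq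
    set S : Set (ℂ × ℂ × ℂ) := Ω ×ˢ (Ω ×ˢ Ω) with hS
    have hSd : Dense S := hΩd.prod (hΩd.prod hΩd)
    have : (𝓝[S] (z, p, q)).NeBot := mem_closure_iff_nhdsWithin_neBot.1 (hSd _)
    have hpz : p - z ≠ 0 := sub_ne_zero.2 hp
    have hqz : q - z ≠ 0 := sub_ne_zero.2 hq
    have c1 : ContinuousAt (fun x : ℂ × ℂ × ℂ =>
        ‖(v x.2.1 - v x.1) / (x.2.1 - x.1) - (v x.2.2 - v x.1) / (x.2.2 - x.1)‖) (z, p, q) := by
      apply ContinuousAt.norm
      apply ContinuousAt.sub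
      · refine ContinuousAt.div ?_ ?_ ?_
        · exact ((hvc.comp (continuous_fst.comp continuous_snd)).sub
            (hvc.comp continuous_fst)).continuousAt
        · exact ((continuous_fst.comp continuous_snd).sub continuous_fst).continuousAt
        · exact hpz
      · refine ContinuousAt.div ?_ ?_ ?_
        · exact ((hvc.comp (continuous_snd.comp continuous_snd)).sub
            (hvc.comp continuous_fst)).continuousAt
        · exact ((continuous_snd.comp continuous_snd).sub continuous_fst).continuousAt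
        · exact hqz
    have c2 : ContinuousAt (fun x : ℂ × ℂ × ℂ =>
        M * (1 + |Real.log (‖x.2.1 - x.1‖ / ‖x.2.2 - x.1‖)|)) (z, p, q) := by
      apply ContinuousAt.mul continuousAt_const
      apply ContinuousAt.add continuousAt_const
      apply ContinuousAt.abs
      apply ContinuousAt.log
      · apply ContinuousAt.div
        · exact ((continuous_fst.comp continuous_snd).sub continuous_fst).norm.continuousAt
        · exact ((continuous_snd.comp continuous_snd).sub continuous_fst).norm.continuousAt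
        · exact norm_ne_zero_iff.2 hqz
      · exact div_ne_zero (norm_ne_zero_iff.2 hpz) (norm_ne_zero_iff.2 hqz)
    have t1 := c1.tendsto.mono_left (nhdsWithin_le_nhds (s := S))
    have t2 := c2.tendsto.mono_left (nhdsWithin_le_nhds (s := S))
    refine le_of_tendsto_of_tendsto t1 t2 ?_
    have o1 : ∀ᶠ x : ℂ × ℂ × ℂ in 𝓝[S] (z, p, q), x.2.1 - x.1 ≠ 0 := by
      apply nhdsWithin_le_nhds
      exact (((continuous_fst.comp continuous_snd).sub continuous_fst).continuousAt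
        (x := (z, p, q))).eventually_ne hpz
    have o2 : ∀ᶠ x : ℂ × ℂ × ℂ in 𝓝[S] (z, p, q), x.2.2 - x.1 ≠ 0 := by
      apply nhdsWithin_le_nhds
      exact (((continuous_snd.comp continuous_snd).sub continuous_fst).continuousAt
        (x := (z, p, q))).eventually_ne hqz
    have o3 : ∀ᶠ x : ℂ × ℂ × ℂ in 𝓝[S] (z, p, q), x ∈ S := self_mem_nhdsWithin
    filter_upwards [o1, o2, o3] with x h1 h2 h3
    obtain ⟨hx1, hx2, hx3⟩ := h3
    have := hCR x.1 (x.2.1 - x.1) (x.2.2 - x.1) h1 h2 hx1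
      (by rw [add_sub_cancel]; exact hx2) (by rw [add_sub_cancel]; exact hx3)
    rw [add_sub_cancel, add_sub_cancel] at this
    rw [hve _ hx1, hve _ hx2, hve _ hx3]
    exact this
  have := hgen z (z + a) (z + b) (by simpa using ha) (by simpa using hb)
  simpa using this

end BR
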